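import Mathlib

/-!
# Sublinear sample-based testing of stretched configurations

Call a point `c` of a stretched configuration its top if it is the point with the largest
`y`-coordinate in the preimage. The key fact is that, for a fixed candidate `c` for the top, the
obstacles have bounded size: if `c` together with every set of at most six further points is
stretched with top `c`, then the whole set is stretched with top `c`. Indeed the angular order
around `c` gives the order of the `x`-coordinates, and a point can be taken as the next highest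
point iff no line through two other points separates it from `c`. If no point of a set `R` can be
taken, then let `h₁ h₂` be a convex hull edge of `R` seen from `c`: all other points are separated
from `c` by the line `h₁ h₂`, and `h₁` and `h₂` are separated from `c` by two further lines.

So a configuration which is `ε`-far has, for every candidate top `c`, at least `ε n / 6` pairwise
disjoint obstacles of size at most six, and a sample of size `n ^ (6 / 7)` contains one of them,
for every `c`, with high probability.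
-/

open Finset

namespace Pool.Agent.Results.MP_097bbc_lc.SublinearTester

/-! ### The definitions used in the statement -/

/-- The points of the plane. -/
abbrev Pt : Type := ℝ × ℝ

/-- The determinant whose sign is the orientation. -/
def det (a b c : Pt) : ℝ := (b.1 - a.1) * (c.2 - a.2) - (b.2 - a.2) * (c.1 - a.1)

/-- The orientation `+1`, `0` or `-1` of an ordered triple. -/
noncomputable def orient (a b c : Pt) : SignType := SignType.sign (det a b c)

/-- The finite sets `S` and `T` give the same configuration: some bijection preserves the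
orientation of every ordered triple. -/
def SameConfig (S T : Finset Pt) : Prop :=
  ∃ f : Pt → Pt, Set.BijOn f S T ∧
    ∀ a ∈ S, ∀ b ∈ S, ∀ c ∈ S, orient (f a) (f b) (f c) = orient a b c

/-- No two points share an `x`- or a `y`-coordinate. -/
def Generic (T : Finset Pt) : Prop := ∀ p ∈ T, ∀ q ∈ T, p ≠ q → p.1 ≠ q.1 ∧ p.2 ≠ q.2

/-- `h` is an admissible choice of the new `y`-coordinates in the definition of stretching: the
point `(p.1, h p)` is above all points placed before it, and above every line through two of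
them. -/
def IsLift (T : Finset Pt) (h : Pt → ℝ) : Prop :=
  ∀ p ∈ T, (∀ q ∈ T, q.2 < p.2 → h q < h p) ∧
    ∀ q ∈ T, ∀ r ∈ T, q.2 < p.2 → r.2 < p.2 → q ≠ r →
      h q + (h r - h q) / (r.1 - q.1) * (p.1 - q.1) < h p

/-- The configuration of `S` is stretched: it is `STRETCH(T)` for some `T`. -/
def IsStretched (S : Finset Pt) : Prop :=
  ∃ (T : Finset Pt) (h : Pt → ℝ), Generic T ∧ IsLift T h ∧
    SameConfig S (T.image fun p => (p.1, h p))

/-- `S` is `ε`-far from being stretched: removing at most `ε |S|` points never leaves a stretched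
configuration. -/
def IsFar (ε : ℝ) (S : Finset Pt) : Prop :=
  ∀ R ⊆ S, (R.card : ℝ) ≤ ε * S.card → ¬ IsStretched (S \ R)

open Classical in
/-- The probability that the tester with sample size `k` accepts `S`: the fraction of the
`k`-element subsets of `S` which are stretched. -/
noncomputable def acceptProb (k : ℕ) (S : Finset Pt) : ℝ :=
  ((S.powersetCard k).filter IsStretched).card / (S.card.choose k : ℝ)

/-! ### The combinatorial description of stretched configurations -/

lemma det_swap (a b c : Pt) : det b a c = -det a b c := by unfold det; ring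

lemma det_rot (a b c : Pt) : det b c a = det a b c := by unfold det; ring

lemma det_self (a c : Pt) : det a a c = 0 := by unfold det; ring

/-- The orders of the `x`- and of the `y`-coordinates of a preimage under stretching. -/
def Lay (K : Finset Pt) (X Y : Pt → ℝ) : Prop :=
  Set.InjOn X K ∧ Set.InjOn Y K ∧ ∀ a ∈ K, ∀ b ∈ K, ∀ c ∈ K, a ≠ b → Y a < Y c → Y b < Y c →
    SignType.sign (det a b c) = SignType.sign (X b - X a)

lemma Lay.mono {K K' : Finset Pt} {X Y : Pt → ℝ} (h : Lay K X Y) (hK : K' ⊆ K) : Lay K' X Y :=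
  ⟨h.1.mono (by exact_mod_cast hK), h.2.1.mono (by exact_mod_cast hK),
    fun a ha b hb c hc => h.2.2 a (hK ha) b (hK hb) c (hK hc)⟩

lemma sign_mul_pos {x y : ℝ} (hy : 0 < y) : SignType.sign (x * y) = SignType.sign x := by
  rw [sign_mul, sign_pos hy, mul_one]

lemma exists_lay {K : Finset Pt} (hK : IsStretched K) : ∃ X Y, Lay K X Y := by
  obtain ⟨T, h, hgen, hlift, f, hbij, hor⟩ := hK
  have hex : ∀ a ∈ K, ∃ p ∈ T, (p.1, h p) = f a := by
    intro a ha
    have := hbij.mapsTo ha
    simpa using this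
  choose! g hgT hgf using hex
  have hginj : ∀ a ∈ K, ∀ b ∈ K, g a = g b → a = b := by
    intro a ha b hb hab
    refine hbij.injOn ha hb ?_
    rw [← hgf a ha, ← hgf b hb, hab]
  refine ⟨fun a => (g a).1, fun a => (g a).2, ?_, ?_, ?_⟩
  · intro a ha b hb hab
    by_contra hne
    have hgne : g a ≠ g b := fun h' => hne (hginj a ha b hb h')
    exact (hgen _ (hgT a ha) _ (hgT b hb) hgne).1 hab
  · intro a ha b hb hab
    by_contra hne
    have hgne : g a ≠ g b := fun h' => hne (hginj a ha b hb h')
    exact (hgen _ (hgT a ha) _ (hgT b hb) hgne).2 hab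
  · intro a ha b hb c hc hne hac hbc
    have hgne : g a ≠ g b := fun h' => hne (hginj a ha b hb h')
    have hx : (g b).1 - (g a).1 ≠ 0 :=
      sub_ne_zero.2 (hgen _ (hgT b hb) _ (hgT a ha) hgne.symm).1
    have habove := (hlift _ (hgT c hc)).2 _ (hgT a ha) _ (hgT b hb) hac hbc hgne
    have h1 := hor a ha b hb c hc
    unfold orient at h1
    rw [← h1, ← hgf a ha, ← hgf b hb, ← hgf c hc]
    have h2 : det ((g a).1, h (g a)) ((g b).1, h (g b)) ((g c).1, h (g c)) =
        ((g b).1 - (g a).1) * (h (g c) - (h (g a) + (h (g b) - h (g a)) /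
          ((g b).1 - (g a).1) * ((g c).1 - (g a).1))) := by
      unfold det
      field_simp
      ring
    rw [h2]
    exact sign_mul_pos (by linarith)

/-- Suitable heights exist. -/
lemma exists_heights (K : Finset Pt) (X Y : Pt → ℝ) :
    ∃ H : Pt → ℝ, ∀ p ∈ K, (∀ q ∈ K, Y q < Y p → H q < H p) ∧
      ∀ q ∈ K, ∀ r ∈ K, Y q < Y p → Y r < Y p → q ≠ r →
        H q + (H r - H q) / (X r - X q) * (X p - X q) < H p := by
  classical
  induction K using Finset.induction_on_max_value Y with
  | empty => exact ⟨fun _ => 0, by simp⟩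
  | insert a s ha hmax ih =>
    obtain ⟨H, hH⟩ := ih
    -- a number above everything
    obtain ⟨M, hM⟩ : ∃ M : ℝ, (∀ q ∈ s, H q < M) ∧
        ∀ q ∈ s, ∀ r ∈ s, H q + (H r - H q) / (X r - X q) * (X a - X q) < M := by
      obtain ⟨M₁, hM₁⟩ := (s.image H).finite_toSet.bddAbove
      obtain ⟨M₂, hM₂⟩ := ((s ×ˢ s).image fun x : Pt × Pt =>
        H x.1 + (H x.2 - H x.1) / (X x.2 - X x.1) * (X a - X x.1)).finite_toSet.bddAbove
      refine ⟨max M₁ M₂ + 1, fun q hq => ?_, fun q hq r hr => ?_⟩
      · have := hM₁ (Finset.mem_coe.2 (Finset.mem_image_of_mem H hq))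
        have h2 := le_max_left M₁ M₂
        linarith
      · have := hM₂ (Finset.mem_coe.2 (Finset.mem_image_of_mem (fun x : Pt × Pt =>
          H x.1 + (H x.2 - H x.1) / (X x.2 - X x.1) * (X a - X x.1))
          (Finset.mk_mem_product hq hr)))
        have h2 := le_max_right M₁ M₂
        simp only at this
        linarith
    have hne : ∀ q ∈ s, q ≠ a := fun q hq h => ha (h ▸ hq)
    have hup : ∀ q ∈ s, Function.update H a M q = H q := fun q hq =>
      Function.update_of_ne (hne q hq) _ _
    have hself : Function.update H a M a = M := Function.update_self _ _ _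
    refine ⟨Function.update H a M, fun p hp => ?_⟩
    rcases Finset.mem_insert.1 hp with rfl | hp
    · refine ⟨fun q hq hlt => ?_, fun q hq r hr hq' hr' hqr => ?_⟩
      · have hqs : q ∈ s := (Finset.mem_insert.1 hq).resolve_left fun h => by
          rw [h] at hlt
          exact lt_irrefl _ hlt
        rw [hup q hqs, hself]
        exact hM.1 q hqs
      · have hqs : q ∈ s := (Finset.mem_insert.1 hq).resolve_left fun h => by
          rw [h] at hq'
          exact lt_irrefl _ hq'
        have hrs : r ∈ s := (Finset.mem_insert.1 hr).resolve_left fun h => by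
          rw [h] at hr'
          exact lt_irrefl _ hr'
        rw [hup q hqs, hup r hrs, hself]
        exact hM.2 q hqs r hrs
    · have hlow : ∀ q ∈ insert a s, Y q < Y p → q ∈ s := fun q hq hlt =>
        (Finset.mem_insert.1 hq).resolve_left fun h => by
          rw [h] at hlt
          exact absurd (hmax p hp) (not_le.2 hlt)
      refine ⟨fun q hq hlt => ?_, fun q hq r hr hq' hr' hqr => ?_⟩
      · have hqs := hlow q hq hlt
        rw [hup q hqs, hup p hp]
        exact (hH p hp).1 q hqs hlt
      · have hqs := hlow q hq hq'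
        have hrs := hlow r hr hr'
        rw [hup q hqs, hup r hrs, hup p hp]
        exact (hH p hp).2 q hqs r hrs hq' hr' hqr

/-- The sign of a triple is determined by a layout. -/
lemma sign_eq_of_lay {K : Finset Pt} {X Y : Pt → ℝ} {d : Pt → Pt → Pt → ℝ}
    (hswap : ∀ a b c, d b a c = -d a b c) (hrot : ∀ a b c, d b c a = d a b c)
    (h : Lay K X Y) (hd : ∀ a ∈ K, ∀ b ∈ K, ∀ c ∈ K, a ≠ b → Y a < Y c → Y b < Y c →
      SignType.sign (d a b c) = SignType.sign (X b - X a)) :
    ∀ a ∈ K, ∀ b ∈ K, ∀ c ∈ K, SignType.sign (d a b c) = SignType.sign (det a b c) := by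
  have hswap' : ∀ a b c, SignType.sign (d a b c) = SignType.sign (det a b c) →
      SignType.sign (d b a c) = SignType.sign (det b a c) := by
    intro a b c h'
    rw [hswap, det_swap, Left.sign_neg, Left.sign_neg, h']
  have hrot' : ∀ a b c, SignType.sign (d a b c) = SignType.sign (det a b c) →
      SignType.sign (d b c a) = SignType.sign (det b c a) := by
    intro a b c h'
    rw [hrot, det_rot, h']
  -- the case where the third point is the highest one
  have key : ∀ a ∈ K, ∀ b ∈ K, ∀ c ∈ K, a ≠ b → Y a < Y c → Y b < Y c →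
      SignType.sign (d a b c) = SignType.sign (det a b c) := fun a ha b hb c hc hab hac hbc => by
    rw [hd a ha b hb c hc hab hac hbc, h.2.2 a ha b hb c hc hab hac hbc]
  intro a ha b hb c hc
  have hdeg : ∀ a c, SignType.sign (d a a c) = SignType.sign (det a a c) := by
    intro a c
    have h1 : d a a c = 0 := by
      have := hswap a a c
      linarith
    rw [h1, det_self]
  by_cases hab : a = b
  · subst hab
    exact hdeg a c
  by_cases hbc : b = c
  · subst hbc
    have := hdeg b a
    exact hrot' _ _ _ (hrot' _ _ _ this)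
  by_cases hac : a = c
  · subst hac
    have := hdeg a b
    exact hrot' _ _ _ this
  have hYab : Y a ≠ Y b := fun h' => hab (h.2.1 ha hb h')
  have hYbc : Y b ≠ Y c := fun h' => hbc (h.2.1 hb hc h')
  have hYac : Y a ≠ Y c := fun h' => hac (h.2.1 ha hc h')
  rcases lt_or_gt_of_ne hYac with h1 | h1
  · rcases lt_or_gt_of_ne hYbc with h2 | h2
    · exact key a ha b hb c hc hab h1 h2
    · -- `b` is the highest
      have := key c hc a ha b hb (Ne.symm hac) h2 (h1.trans h2)
      exact hrot' _ _ _ this
  · rcases lt_or_gt_of_ne hYab with h2 | h2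
    · -- `b` is the highest
      have := key c hc a ha b hb (Ne.symm hac) (h1.trans h2) h2
      exact hrot' _ _ _ this
    · -- `a` is the highest
      have := key b hb c hc a ha hbc h2 h1
      exact hrot' _ _ _ (hrot' _ _ _ this)

lemma isStretched_of_lay {K : Finset Pt} {X Y : Pt → ℝ} (h : Lay K X Y) : IsStretched K := by
  classical
  obtain ⟨H, hH⟩ := exists_heights K X Y
  have hinj : Set.InjOn (fun a : Pt => ((X a, Y a) : Pt)) K := fun a ha b hb hab =>
    h.1 ha hb (congrArg Prod.fst hab)
  -- the heights as a function on the preimage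
  set g : Pt → Pt := Function.invFunOn (fun a : Pt => ((X a, Y a) : Pt)) K with hg
  have hgK : ∀ a ∈ K, g (X a, Y a) = a := fun a ha => by
    have h1 : ∃ b ∈ (K : Set Pt), (fun a : Pt => ((X a, Y a) : Pt)) b = (X a, Y a) := ⟨a, ha, rfl⟩
    exact hinj (Function.invFunOn_mem h1) ha (Function.invFunOn_eq h1)
  refine ⟨K.image fun a => (X a, Y a), fun p => H (g p), ?_, ?_, fun a => (X a, H a), ?_, ?_⟩
  · intro p hp q hq hne
    obtain ⟨a, ha, rfl⟩ := Finset.mem_image.1 hp
    obtain ⟨b, hb, rfl⟩ := Finset.mem_image.1 hq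
    have hab : a ≠ b := fun h' => hne (by rw [h'])
    exact ⟨fun h' => hab (h.1 ha hb h'), fun h' => hab (h.2.1 ha hb h')⟩
  · intro p hp
    obtain ⟨a, ha, rfl⟩ := Finset.mem_image.1 hp
    refine ⟨fun q hq hlt => ?_, fun q hq r hr hq' hr' hne => ?_⟩
    · obtain ⟨b, hb, rfl⟩ := Finset.mem_image.1 hq
      simp only [hgK a ha, hgK b hb]
      exact (hH a ha).1 b hb hlt
    · obtain ⟨b, hb, rfl⟩ := Finset.mem_image.1 hq
      obtain ⟨c, hc, rfl⟩ := Finset.mem_image.1 hr
      simp only [hgK a ha, hgK b hb, hgK c hc]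
      exact (hH a ha).2 b hb c hc hq' hr' fun h' => hne (by rw [h'])
  · refine ⟨?_, ?_, ?_⟩
    · intro a ha
      simp only [Finset.coe_image, Set.image_image, Set.mem_image]
      exact ⟨a, ha, by rw [hgK a ha]⟩
    · intro a ha b hb hab
      exact h.1 ha hb (congrArg Prod.fst hab)
    · intro p hp
      simp only [Finset.coe_image, Set.image_image, Set.mem_image] at hp
      obtain ⟨a, ha, rfl⟩ := hp
      exact ⟨a, ha, by simp only [hgK a ha]⟩
  · refine sign_eq_of_lay (d := fun a b c => det (X a, H a) (X b, H b) (X c, H c))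
      (fun a b c => det_swap _ _ _) (fun a b c => det_rot _ _ _) h ?_
    intro a ha b hb c hc hab hac hbc
    have hx : X b - X a ≠ 0 := sub_ne_zero.2 fun h' => hab (h.1 hb ha h').symm
    have habove := (hH c hc).2 a ha b hb hac hbc hab
    have h2 : det (X a, H a) (X b, H b) (X c, H c) =
        (X b - X a) * (H c - (H a + (H b - H a) / (X b - X a) * (X c - X a))) := by
      unfold det
      field_simp
      ring
    simp only [h2]
    exact sign_mul_pos (by linarith)

/-! ### For a fixed top, the obstacles have bounded size -/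

/-- `R ∪ {c}` is stretched with top `c`. -/
def Good (c : Pt) (R : Finset Pt) : Prop :=
  ∃ X Y, Lay (insert c R) X Y ∧ ∀ a ∈ R, Y a < Y c

lemma Good.mono {c : Pt} {R R' : Finset Pt} (h : Good c R) (hR : R' ⊆ R) : Good c R' := by
  obtain ⟨X, Y, hL, hY⟩ := h
  exact ⟨X, Y, hL.mono (Finset.insert_subset_insert c hR), fun a ha => hY a (hR ha)⟩

lemma Good.isStretched {c : Pt} {R : Finset Pt} (h : Good c R) : IsStretched (insert c R) := by
  obtain ⟨X, Y, hL, -⟩ := h
  exact isStretched_of_lay hL

lemma exists_top {K : Finset Pt} (hK : IsStretched K) (hne : K.Nonempty) :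
    ∃ c ∈ K, Good c (K.erase c) := by
  obtain ⟨X, Y, hL⟩ := exists_lay hK
  obtain ⟨c, hc, hmax⟩ := Finset.exists_max_image K Y hne
  refine ⟨c, hc, X, Y, ?_, fun a ha => ?_⟩
  · rwa [Finset.insert_erase hc]
  · have haK := Finset.mem_of_mem_erase ha
    refine lt_of_le_of_ne (hmax a haK) fun h' => ?_
    exact (Finset.ne_of_mem_erase ha) (hL.2.1 haK hc h')

lemma det_ne_zero_of_lay {K : Finset Pt} {X Y : Pt → ℝ} (h : Lay K X Y) {a b c : Pt} (ha : a ∈ K)
    (hb : b ∈ K) (hc : c ∈ K) (hab : a ≠ b) (hbc : b ≠ c) (hac : a ≠ c) : det a b c ≠ 0 := by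
  have key : ∀ a ∈ K, ∀ b ∈ K, ∀ c ∈ K, a ≠ b → Y a < Y c → Y b < Y c → det a b c ≠ 0 := by
    intro a ha b hb c hc hab hac hbc h0
    have h1 := h.2.2 a ha b hb c hc hab hac hbc
    rw [h0, sign_zero] at h1
    have h2 : X b - X a = 0 := sign_eq_zero_iff.1 h1.symm
    exact hab (h.1 ha hb (by linarith))
  have hYab : Y a ≠ Y b := fun h' => hab (h.2.1 ha hb h')
  have hYbc : Y b ≠ Y c := fun h' => hbc (h.2.1 hb hc h')
  have hYac : Y a ≠ Y c := fun h' => hac (h.2.1 ha hc h')
  rcases lt_or_gt_of_ne hYac with h1 | h1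
  · rcases lt_or_gt_of_ne hYbc with h2 | h2
    · exact key a ha b hb c hc hab h1 h2
    · have := key c hc a ha b hb (Ne.symm hac) h2 (h1.trans h2)
      rwa [← det_rot] at this
  · rcases lt_or_gt_of_ne hYab with h2 | h2
    · have := key c hc a ha b hb (Ne.symm hac) (h1.trans h2) h2
      rwa [← det_rot] at this
    · have := key b hb c hc a ha hbc h2 h1
      rwa [← det_rot, ← det_rot] at this

/-- The determinant in terms of slopes. -/
lemma det_slope (h x y c : Pt) :
    det h x y * ((c.1 - h.1) ^ 2 + (c.2 - h.2) ^ 2) =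
      det h x c * ((y.1 - h.1) * (c.1 - h.1) + (y.2 - h.2) * (c.2 - h.2)) -
      ((x.1 - h.1) * (c.1 - h.1) + (x.2 - h.2) * (c.2 - h.2)) * det h y c := by
  unfold det
  ring

/-- The obstacles relative to the top `c` have at most six points. -/
lemma helly {c : Pt} {R : Finset Pt} (hcR : c ∉ R)
    (hsmall : ∀ O ⊆ R, O.card ≤ 6 → Good c O) : Good c R := by
  classical
  have hcne : ∀ a ∈ R, a ≠ c := fun a ha h => hcR (h ▸ ha)
  -- facts about pairs and triples
  have hdet : ∀ a ∈ R, ∀ b ∈ R, a ≠ b → det a b c ≠ 0 := by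
    intro a ha b hb hab
    obtain ⟨X, Y, hL, -⟩ := hsmall {a, b} (by
      intro x hx
      simp only [Finset.mem_insert, Finset.mem_singleton] at hx
      rcases hx with rfl | rfl <;> assumption) ((Finset.card_le_two).trans (by norm_num))
    exact det_ne_zero_of_lay hL (by simp) (by simp) (by simp) hab (hcne b hb) (hcne a ha)
  have hdet3 : ∀ a ∈ R, ∀ b ∈ R, ∀ t ∈ R, a ≠ b → b ≠ t → a ≠ t → det a b t ≠ 0 := by
    intro a ha b hb t ht hab hbt hat
    obtain ⟨X, Y, hL, -⟩ := hsmall {a, b, t} (by
      intro x hx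
      simp only [Finset.mem_insert, Finset.mem_singleton] at hx
      rcases hx with rfl | rfl | rfl <;> assumption) ((Finset.card_le_three).trans (by norm_num))
    exact det_ne_zero_of_lay hL (by simp) (by simp) (by simp) hab hbt hat
  have htrans : ∀ a ∈ R, ∀ b ∈ R, ∀ t ∈ R, 0 < det a b c → 0 < det b t c → 0 < det a t c := by
    intro a ha b hb t ht h1 h2
    have hab : a ≠ b := by
      rintro rfl
      rw [det_self] at h1
      exact lt_irrefl _ h1
    have hbt : b ≠ t := by
      rintro rfl
      rw [det_self] at h2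
      exact lt_irrefl _ h2
    have hat : a ≠ t := by
      rintro rfl
      rw [det_swap a b c] at h2
      linarith
    obtain ⟨X, Y, hL, hY⟩ := hsmall {a, b, t} (by
      intro x hx
      simp only [Finset.mem_insert, Finset.mem_singleton] at hx
      rcases hx with rfl | rfl | rfl <;> assumption) ((Finset.card_le_three).trans (by norm_num))
    have e1 := hL.2.2 a (by simp) b (by simp) c (by simp) hab (hY a (by simp)) (hY b (by simp))
    have e2 := hL.2.2 b (by simp) t (by simp) c (by simp) hbt (hY b (by simp)) (hY t (by simp))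
    have e3 := hL.2.2 a (by simp) t (by simp) c (by simp) hat (hY a (by simp)) (hY t (by simp))
    rw [sign_pos h1] at e1
    rw [sign_pos h2] at e2
    have f1 : 0 < X b - X a := sign_eq_one_iff.1 e1.symm
    have f2 : 0 < X t - X b := sign_eq_one_iff.1 e2.symm
    rw [sign_pos (by linarith : 0 < X t - X a)] at e3
    exact sign_eq_one_iff.1 e3
  -- some point can be taken as the next highest one
  have helim : ∀ R' ⊆ R, R'.Nonempty → ∃ t ∈ R', ∀ a ∈ R', ∀ b ∈ R', a ≠ t → b ≠ t → a ≠ b →
      SignType.sign (det a b t) = SignType.sign (det a b c) := by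
    intro R' hR' hne
    by_contra hcon
    push Not at hcon
    choose! va hva vb hvb hva' hvb' hvab hviol using hcon
    -- the first point in the angular order
    obtain ⟨h₁, hh₁, hmin⟩ := Finset.exists_min_image R'
      (fun x => (R'.filter fun y => 0 < det y x c).card) hne
    have hfirst : ∀ x ∈ R', x ≠ h₁ → 0 < det h₁ x c := by
      intro x hx hxh
      rcases lt_or_gt_of_ne (hdet h₁ (hR' hh₁) x (hR' hx) (Ne.symm hxh)) with hlt | hgt
      · exfalso
        have hx1 : 0 < det x h₁ c := by
          rw [det_swap]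
          linarith
        have hsub : (R'.filter fun y => 0 < det y x c) ⊂ (R'.filter fun y => 0 < det y h₁ c) := by
          rw [Finset.ssubset_iff_of_subset]
          · refine ⟨x, Finset.mem_filter.2 ⟨hx, hx1⟩, fun h' => ?_⟩
            have := (Finset.mem_filter.1 h').2
            rw [det_self] at this
            exact lt_irrefl _ this
          · intro y hy
            obtain ⟨hy1, hy2⟩ := Finset.mem_filter.1 hy
            exact Finset.mem_filter.2 ⟨hy1, htrans y (hR' hy1) x (hR' hx) h₁ (hR' hh₁) hy2 hx1⟩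
        exact absurd (Finset.card_lt_card hsub) (not_lt.2 (hmin x hx))
      · exact hgt
    -- the other end of the hull edge
    obtain ⟨h₂, hh₂, hmax⟩ := Finset.exists_max_image (R'.erase h₁)
      (fun x => ((x.1 - h₁.1) * (c.1 - h₁.1) + (x.2 - h₁.2) * (c.2 - h₁.2)) / det h₁ x c)
      ⟨va h₁, Finset.mem_erase.2 ⟨hva' h₁ hh₁, hva h₁ hh₁⟩⟩
    obtain ⟨hh₂ne, hh₂R⟩ := Finset.mem_erase.1 hh₂
    have hedge : ∀ t ∈ R', t ≠ h₁ → t ≠ h₂ → det h₁ h₂ t < 0 := by
      intro t ht ht1 ht2
      have hp2 := hfirst h₂ hh₂R hh₂ne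
      have hpt := hfirst t ht ht1
      have hm := hmax t (Finset.mem_erase.2 ⟨ht1, ht⟩)
      rw [div_le_div_iff₀ hpt hp2] at hm
      have hid := det_slope h₁ h₂ t c
      have hpos : 0 < (c.1 - h₁.1) ^ 2 + (c.2 - h₁.2) ^ 2 := by
        rcases eq_or_ne c.1 h₁.1 with e1 | e1
        · have e2 : c.2 ≠ h₁.2 := fun e2 => hcne h₁ (hR' hh₁) (Prod.ext e1.symm e2.symm)
          have := sub_ne_zero.2 e2
          positivity
        · have := sub_ne_zero.2 e1
          positivity
      have hle : det h₁ h₂ t ≤ 0 := by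
        by_contra hgt
        have : 0 < det h₁ h₂ t * ((c.1 - h₁.1) ^ 2 + (c.2 - h₁.2) ^ 2) :=
          mul_pos (not_le.1 hgt) hpos
        nlinarith
      exact lt_of_le_of_ne hle (hdet3 h₁ (hR' hh₁) h₂ (hR' hh₂R) t (hR' ht) (Ne.symm hh₂ne)
        (Ne.symm ht2) (Ne.symm ht1))
    -- the small obstacle
    set O : Finset Pt := {h₁, h₂, va h₁, vb h₁, va h₂, vb h₂} with hO
    have hOsub : O ⊆ R' := by
      intro x hx
      simp only [hO, Finset.mem_insert, Finset.mem_singleton] at hx
      rcases hx with rfl | rfl | rfl | rfl | rfl | rfl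
      · exact hh₁
      · exact hh₂R
      · exact hva _ hh₁
      · exact hvb _ hh₁
      · exact hva _ hh₂R
      · exact hvb _ hh₂R
    obtain ⟨X, Y, hL, hY⟩ := hsmall O (hOsub.trans hR') Finset.card_le_six
    obtain ⟨t, htO, htmax⟩ := Finset.exists_max_image O Y ⟨h₁, by simp [hO]⟩
    have hOL : ∀ a ∈ O, a ∈ insert c O := fun a ha => Finset.mem_insert_of_mem ha
    have hcL : c ∈ insert c O := Finset.mem_insert_self _ _
    -- the highest point of `O` has no violating pair in `O`
    have hgood : ∀ a ∈ O, ∀ b ∈ O, a ≠ t → b ≠ t → a ≠ b →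
        SignType.sign (det a b t) = SignType.sign (det a b c) := by
      intro a ha b hb hat hbt hab
      have h1 : Y a < Y t := lt_of_le_of_ne (htmax a ha) fun h' =>
        hat (hL.2.1 (hOL a ha) (hOL t htO) h')
      have h2 : Y b < Y t := lt_of_le_of_ne (htmax b hb) fun h' =>
        hbt (hL.2.1 (hOL b hb) (hOL t htO) h')
      rw [hL.2.2 a (hOL a ha) b (hOL b hb) t (hOL t htO) hab h1 h2,
        hL.2.2 a (hOL a ha) b (hOL b hb) c hcL hab (hY a ha) (hY b hb)]
    by_cases ht1 : t = h₁
    · subst ht1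
      exact hviol t hh₁ (hgood _ (by simp [hO]) _ (by simp [hO]) (hva' t hh₁) (hvb' t hh₁)
        (hvab t hh₁))
    by_cases ht2 : t = h₂
    · subst ht2
      exact hviol t hh₂R (hgood _ (by simp [hO]) _ (by simp [hO]) (hva' t hh₂R) (hvb' t hh₂R)
        (hvab t hh₂R))
    have h1 := hgood h₁ (by simp [hO]) h₂ (by simp [hO]) (Ne.symm ht1) (Ne.symm ht2)
      (Ne.symm hh₂ne)
    rw [sign_neg (hedge t (hOsub htO) ht1 ht2), sign_pos (hfirst h₂ hh₂R hh₂ne)] at h1
    exact absurd h1 (by decide)
  -- the order of the heights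
  have hheights : ∀ n : ℕ, ∀ R' ⊆ R, R'.card = n → ∃ Y : Pt → ℝ, Set.InjOn Y R' ∧
      ∀ a ∈ R', ∀ b ∈ R', ∀ t ∈ R', a ≠ b → Y a < Y t → Y b < Y t →
        SignType.sign (det a b t) = SignType.sign (det a b c) := by
    intro n
    induction n with
    | zero =>
      intro R' _ hcard
      rw [Finset.card_eq_zero] at hcard
      subst hcard
      exact ⟨fun _ => 0, by simp, by simp⟩
    | succ n ih =>
      intro R' hR' hcard
      obtain ⟨t, ht, htt⟩ := helim R' hR' (Finset.card_pos.1 (by omega))
      obtain ⟨Y, hinj, hY⟩ := ih (R'.erase t) ((Finset.erase_subset _ _).trans hR')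
        (by rw [Finset.card_erase_of_mem ht]; omega)
      obtain ⟨M, hM⟩ := ((R'.erase t).image Y).finite_toSet.bddAbove
      have hM' : ∀ a ∈ R', a ≠ t → Y a < M + 1 := fun a ha hat => by
        have := hM (Finset.mem_coe.2 (Finset.mem_image_of_mem Y (Finset.mem_erase.2 ⟨hat, ha⟩)))
        linarith
      have hup : ∀ a, a ≠ t → Function.update Y t (M + 1) a = Y a := fun a hat =>
        Function.update_of_ne hat _ _
      have hself : Function.update Y t (M + 1) t = M + 1 := Function.update_self _ _ _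
      refine ⟨Function.update Y t (M + 1), ?_, ?_⟩
      · intro a ha b hb hab
        by_cases hat : a = t
        · by_cases hbt : b = t
          · rw [hat, hbt]
          · rw [hat, hself, hup b hbt] at hab
            exact absurd hab (hM' b hb hbt).ne'
        · by_cases hbt : b = t
          · rw [hbt, hself, hup a hat] at hab
            exact absurd hab (hM' a ha hat).ne
          · rw [hup a hat, hup b hbt] at hab
            exact hinj (Finset.mem_coe.2 (Finset.mem_erase.2 ⟨hat, ha⟩))
              (Finset.mem_coe.2 (Finset.mem_erase.2 ⟨hbt, hb⟩)) hab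
      · intro a ha b hb s hs hab has hbs
        have hat : a ≠ t := by
          rintro rfl
          rw [hself] at has
          by_cases hsa : s = a
          · rw [hsa, hself] at has
            exact lt_irrefl _ has
          · rw [hup s hsa] at has
            exact absurd (hM' s hs hsa) (not_lt.2 has.le)
        have hbt : b ≠ t := by
          rintro rfl
          rw [hself] at hbs
          by_cases hsb : s = b
          · rw [hsb, hself] at hbs
            exact lt_irrefl _ hbs
          · rw [hup s hsb] at hbs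
            exact absurd (hM' s hs hsb) (not_lt.2 hbs.le)
        by_cases hst : s = t
        · rw [hst]
          exact htt a ha b hb hat hbt hab
        · rw [hup a hat, hup s hst] at has
          rw [hup b hbt, hup s hst] at hbs
          exact hY a (Finset.mem_erase.2 ⟨hat, ha⟩) b (Finset.mem_erase.2 ⟨hbt, hb⟩) s
            (Finset.mem_erase.2 ⟨hst, hs⟩) hab has hbs
  obtain ⟨Y, hinj, hY⟩ := hheights _ R (Finset.Subset.refl R) rfl
  obtain ⟨M, hM⟩ := (R.image Y).finite_toSet.bddAbove
  have hM' : ∀ a ∈ R, Y a < M + 1 := fun a ha => by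
    have := hM (Finset.mem_coe.2 (Finset.mem_image_of_mem Y ha))
    linarith
  -- the order of the `x`-coordinates
  set N : Pt → ℕ := fun a => (R.filter fun y => 0 < det y a c).card with hN
  have hNlt : ∀ a ∈ R, ∀ b ∈ R, 0 < det a b c → N a < N b := by
    intro a ha b hb hab
    refine Finset.card_lt_card ?_
    rw [Finset.ssubset_iff_of_subset]
    · refine ⟨a, Finset.mem_filter.2 ⟨ha, hab⟩, fun h' => ?_⟩
      have := (Finset.mem_filter.1 h').2
      rw [det_self] at this
      exact lt_irrefl _ this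
    · intro y hy
      obtain ⟨hy1, hy2⟩ := Finset.mem_filter.1 hy
      exact Finset.mem_filter.2 ⟨hy1, htrans y hy1 a ha b hb hy2 hab⟩
  set X : Pt → ℝ := fun a => if a = c then -1 else (N a : ℝ) with hX
  have hXR : ∀ a ∈ R, X a = N a := fun a ha => if_neg (hcne a ha)
  have hXc : X c = -1 := if_pos rfl
  have hsign : ∀ a ∈ R, ∀ b ∈ R, a ≠ b →
      SignType.sign (det a b c) = SignType.sign (X b - X a) := by
    intro a ha b hb hab
    rw [hXR a ha, hXR b hb]
    rcases lt_or_gt_of_ne (hdet a ha b hb hab) with hlt | hgt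
    · have h1 : 0 < det b a c := by
        rw [det_swap]
        linarith
      have h2 : (N b : ℝ) < N a := by exact_mod_cast hNlt b hb a ha h1
      rw [sign_neg hlt, sign_neg (by linarith)]
    · have h2 : (N a : ℝ) < N b := by exact_mod_cast hNlt a ha b hb hgt
      rw [sign_pos hgt, sign_pos (by linarith)]
  have hYup : ∀ a ∈ R, Function.update Y c (M + 1) a = Y a := fun a ha =>
    Function.update_of_ne (hcne a ha) _ _
  have hYc : Function.update Y c (M + 1) c = M + 1 := Function.update_self _ _ _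
  refine ⟨X, Function.update Y c (M + 1), ⟨?_, ?_, ?_⟩, fun a ha => ?_⟩
  · intro a ha b hb hab
    rcases Finset.mem_insert.1 (Finset.mem_coe.1 ha) with ha' | ha'
    · rcases Finset.mem_insert.1 (Finset.mem_coe.1 hb) with hb' | hb'
      · rw [ha', hb']
      · rw [ha', hXc, hXR b hb'] at hab
        have : (0 : ℝ) ≤ N b := Nat.cast_nonneg _
        linarith
    · rcases Finset.mem_insert.1 (Finset.mem_coe.1 hb) with hb' | hb'
      · rw [hb', hXc, hXR a ha'] at hab
        have : (0 : ℝ) ≤ N a := Nat.cast_nonneg _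
        linarith
      · by_contra hne
        have h1 := hsign a ha' b hb' hne
        rw [hab, sub_self, sign_zero] at h1
        exact hdet a ha' b hb' hne (sign_eq_zero_iff.1 h1)
  · intro a ha b hb hab
    rcases Finset.mem_insert.1 (Finset.mem_coe.1 ha) with ha' | ha'
    · rcases Finset.mem_insert.1 (Finset.mem_coe.1 hb) with hb' | hb'
      · rw [ha', hb']
      · rw [ha', hYc, hYup b hb'] at hab
        exact absurd hab (hM' b hb').ne'
    · rcases Finset.mem_insert.1 (Finset.mem_coe.1 hb) with hb' | hb'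
      · rw [hb', hYc, hYup a ha'] at hab
        exact absurd hab (hM' a ha').ne
      · rw [hYup a ha', hYup b hb'] at hab
        exact hinj ha' hb' hab
  · intro a ha b hb t ht hab hat hbt
    have hle : ∀ s ∈ insert c R, Function.update Y c (M + 1) s ≤ M + 1 := by
      intro s hs
      rcases Finset.mem_insert.1 hs with rfl | hs
      · rw [hYc]
      · rw [hYup s hs]
        exact (hM' s hs).le
    have haR : a ∈ R := (Finset.mem_insert.1 ha).resolve_left fun h' => by
      rw [h', hYc] at hat
      exact absurd (hle t ht) (not_le.2 hat)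
    have hbR : b ∈ R := (Finset.mem_insert.1 hb).resolve_left fun h' => by
      rw [h', hYc] at hbt
      exact absurd (hle t ht) (not_le.2 hbt)
    rcases Finset.mem_insert.1 ht with rfl | ht
    · exact hsign a haR b hbR hab
    · rw [hYup a haR, hYup t ht] at hat
      rw [hYup b hbR, hYup t ht] at hbt
      rw [hY a haR b hbR t ht hab hat hbt]
      exact hsign a haR b hbR hab
  · rw [hYup a ha, hYc]
    exact hM' a ha

/-! ### Disjoint obstacles -/

/-- For every candidate top, an `ε`-far set contains many disjoint obstacles. -/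
lemma exists_obstacles {S : Finset Pt} {ε : ℝ} (hfar : IsFar ε S) {c : Pt} (hc : c ∈ S) :
    ∃ F : Finset (Finset Pt), (∀ O ∈ F, O ⊆ S ∧ O.card ≤ 6 ∧ O.Nonempty ∧ c ∉ O ∧ ¬ Good c O) ∧
      (∀ O ∈ F, ∀ O' ∈ F, O ≠ O' → Disjoint O O') ∧ ε * S.card < 6 * F.card := by
  classical
  -- a maximal family of disjoint obstacles
  set P : Finset (Finset Pt) → Prop := fun F =>
    (∀ O ∈ F, O ⊆ S ∧ O.card ≤ 6 ∧ O.Nonempty ∧ c ∉ O ∧ ¬ Good c O) ∧
      ∀ O ∈ F, ∀ O' ∈ F, O ≠ O' → Disjoint O O' with hP
  have hne : (S.powerset.powerset.filter P).Nonempty :=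
    ⟨∅, Finset.mem_filter.2 ⟨by simp, by simp [hP]⟩⟩
  obtain ⟨F, hF, hmax⟩ := Finset.exists_max_image _ (fun F : Finset (Finset Pt) => F.card) hne
  obtain ⟨hFS, hF1, hF2⟩ := Finset.mem_filter.1 hF
  refine ⟨F, hF1, hF2, ?_⟩
  set U : Finset Pt := F.biUnion id with hU
  have hUcard : U.card ≤ 6 * F.card := by
    calc U.card ≤ ∑ O ∈ F, (id O).card := Finset.card_biUnion_le
      _ ≤ ∑ _O ∈ F, 6 := Finset.sum_le_sum fun O hO => (hF1 O hO).2.1
      _ = 6 * F.card := by rw [Finset.sum_const, smul_eq_mul, mul_comm]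
  have hUS : U ⊆ S := Finset.biUnion_subset.2 fun O hO => (hF1 O hO).1
  have hcU : c ∉ U := by
    intro h
    obtain ⟨O, hO, hcO⟩ := Finset.mem_biUnion.1 h
    exact (hF1 O hO).2.2.2.1 hcO
  by_contra hle
  push Not at hle
  refine hfar U hUS ?_ ?_
  · calc (U.card : ℝ) ≤ ((6 * F.card : ℕ) : ℝ) := by exact_mod_cast hUcard
      _ = 6 * F.card := by push_cast; ring
      _ ≤ ε * S.card := hle
  · -- no obstacle is left
    have hcS : c ∈ S \ U := Finset.mem_sdiff.2 ⟨hc, hcU⟩
    have hgood : Good c ((S \ U).erase c) := by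
      refine helly (Finset.notMem_erase c _) fun O hO hO6 => ?_
      by_contra hbad
      have hOne : O.Nonempty := by
        rw [Finset.nonempty_iff_ne_empty]
        rintro rfl
        exact hbad ⟨fun _ => 0, fun _ => 0, ⟨by simp, by simp, by simp⟩, by simp⟩
      have hOS : O ⊆ S := fun x hx =>
        (Finset.mem_sdiff.1 (Finset.mem_of_mem_erase (hO hx))).1
      have hOU : ∀ x ∈ O, x ∉ U := fun x hx =>
        (Finset.mem_sdiff.1 (Finset.mem_of_mem_erase (hO hx))).2
      have hcO : c ∉ O := fun h => Finset.notMem_erase c _ (hO h)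
      have hdis : ∀ O' ∈ F, Disjoint O O' := by
        intro O' hO'
        rw [Finset.disjoint_left]
        exact fun x hx hx' => hOU x hx (Finset.mem_biUnion.2 ⟨O', hO', hx'⟩)
      have hOF : O ∉ F := by
        intro h
        obtain ⟨x, hx⟩ := hOne
        exact hOU x hx (Finset.mem_biUnion.2 ⟨O, h, hx⟩)
      have hnew : insert O F ∈ S.powerset.powerset.filter P := by
        refine Finset.mem_filter.2 ⟨?_, ?_, ?_⟩
        · rw [Finset.mem_powerset]
          exact Finset.insert_subset (Finset.mem_powerset.2 hOS) (Finset.mem_powerset.1 hFS)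
        · intro O' hO'
          rcases Finset.mem_insert.1 hO' with rfl | hO'
          · exact ⟨hOS, hO6, hOne, hcO, hbad⟩
          · exact hF1 O' hO'
        · intro O₁ h₁ O₂ h₂ hne'
          rcases Finset.mem_insert.1 h₁ with e₁ | e₁
          · rcases Finset.mem_insert.1 h₂ with e₂ | e₂
            · exact absurd (e₁.trans e₂.symm) hne'
            · rw [e₁]
              exact hdis O₂ e₂
          · rcases Finset.mem_insert.1 h₂ with e₂ | e₂
            · rw [e₂]
              exact (hdis O₁ e₁).symm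
            · exact hF2 O₁ e₁ O₂ e₂ hne'
      have := hmax _ hnew
      simp only [Finset.card_insert_of_notMem hOF] at this
      omega
    have := hgood.isStretched
    rwa [Finset.insert_erase hcS] at this

/-! ### Random subsets -/

/-- The Bernoulli weight of the subsets of `S` which contain no member of `F`. -/
lemma weight_bound (q : ℝ) (hq0 : 0 ≤ q) (hq1 : q ≤ 1) (F : Finset (Finset Pt)) :
    ∀ S : Finset Pt, (∀ O ∈ F, O ⊆ S ∧ O.card ≤ 6 ∧ O.Nonempty) →
      (∀ O ∈ F, ∀ O' ∈ F, O ≠ O' → Disjoint O O') →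
      ∑ K ∈ S.powerset with (∀ O ∈ F, ¬ O ⊆ K), q ^ K.card * (1 - q) ^ (S.card - K.card) ≤
        (1 - q ^ 6) ^ F.card := by
  classical
  have hq1' : 0 ≤ 1 - q := by linarith
  induction F using Finset.induction_on with
  | empty =>
    intro S _ _
    simp only [Finset.notMem_empty, false_imp_iff, imp_true_iff, Finset.filter_true,
      Finset.card_empty, pow_zero]
    rw [Finset.sum_pow_mul_eq_add_pow]
    simp
  | insert O F hOF ih =>
    intro S hS hdis
    obtain ⟨hOS, hO6, hOne⟩ := hS O (Finset.mem_insert_self _ _)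
    have hFS : ∀ O' ∈ F, O' ⊆ S \ O ∧ O'.card ≤ 6 ∧ O'.Nonempty := by
      intro O' hO'
      obtain ⟨h1, h2, h3⟩ := hS O' (Finset.mem_insert_of_mem hO')
      refine ⟨fun x hx => Finset.mem_sdiff.2 ⟨h1 hx, fun hxO => ?_⟩, h2, h3⟩
      have hne : O' ≠ O := fun h => hOF (h ▸ hO')
      exact Finset.disjoint_left.1 (hdis O' (Finset.mem_insert_of_mem hO') O
        (Finset.mem_insert_self _ _) hne) hx hxO
    have hih := ih (S \ O) hFS fun O₁ h₁ O₂ h₂ => hdis O₁ (Finset.mem_insert_of_mem h₁) O₂
      (Finset.mem_insert_of_mem h₂)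
    -- split the subset
    have hsplit : ∑ K ∈ S.powerset with (∀ O' ∈ insert O F, ¬ O' ⊆ K),
        q ^ K.card * (1 - q) ^ (S.card - K.card) =
        ∑ x ∈ (O.powerset.erase O) ×ˢ ((S \ O).powerset.filter fun K => ∀ O' ∈ F, ¬ O' ⊆ K),
          (q ^ x.1.card * (1 - q) ^ (O.card - x.1.card)) *
            (q ^ x.2.card * (1 - q) ^ ((S \ O).card - x.2.card)) := by
      refine Finset.sum_bij' (fun K _ => (K ∩ O, K \ O)) (fun x _ => x.1 ∪ x.2) ?_ ?_ ?_ ?_ ?_
      · intro K hK
        obtain ⟨hKS, hKF⟩ := Finset.mem_filter.1 hK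
        rw [Finset.mem_powerset] at hKS
        refine Finset.mem_product.2 ⟨Finset.mem_erase.2 ⟨fun h => ?_, ?_⟩,
          Finset.mem_filter.2 ⟨?_, fun O' hO' hsub => ?_⟩⟩
        · exact hKF O (Finset.mem_insert_self _ _) (Finset.inter_eq_right.1 h)
        · exact Finset.mem_powerset.2 Finset.inter_subset_right
        · exact Finset.mem_powerset.2 (Finset.sdiff_subset_sdiff hKS (Finset.Subset.refl _))
        · exact hKF O' (Finset.mem_insert_of_mem hO') (hsub.trans Finset.sdiff_subset)
      · rintro ⟨K₁, K₂⟩ hx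
        obtain ⟨h1, h2⟩ := Finset.mem_product.1 hx
        obtain ⟨h3, h4⟩ := Finset.mem_erase.1 h1
        obtain ⟨h5, h6⟩ := Finset.mem_filter.1 h2
        rw [Finset.mem_powerset] at h4 h5
        simp only at h3 h4 h5 h6
        refine Finset.mem_filter.2 ⟨Finset.mem_powerset.2 (Finset.union_subset (h4.trans hOS)
          (h5.trans Finset.sdiff_subset)), fun O' hO' hsub => ?_⟩
        rcases Finset.mem_insert.1 hO' with rfl | hO'
        · refine h3 (Finset.Subset.antisymm h4 fun y hy => ?_)
          rcases Finset.mem_union.1 (hsub hy) with h | h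
          · exact h
          · exact absurd hy (Finset.mem_sdiff.1 (h5 h)).2
        · refine h6 O' hO' fun y hy => ?_
          rcases Finset.mem_union.1 (hsub hy) with h | h
          · exact absurd (h4 h) (Finset.mem_sdiff.1 ((hFS O' hO').1 hy)).2
          · exact h
      · intro K _
        simp only
        rw [Finset.union_comm]
        exact Finset.sdiff_union_inter K O
      · rintro ⟨K₁, K₂⟩ hx
        obtain ⟨h1, h2⟩ := Finset.mem_product.1 hx
        obtain ⟨h3, h4⟩ := Finset.mem_erase.1 h1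
        obtain ⟨h5, h6⟩ := Finset.mem_filter.1 h2
        rw [Finset.mem_powerset] at h4 h5
        simp only at h4 h5
        have hd : Disjoint K₂ O := Finset.disjoint_left.2 fun y hy hy' =>
          (Finset.mem_sdiff.1 (h5 hy)).2 hy'
        refine Prod.ext ?_ ?_
        · simp only
          rw [Finset.union_inter_distrib_right, Finset.inter_eq_left.2 h4,
            Finset.disjoint_iff_inter_eq_empty.1 hd, Finset.union_empty]
        · simp only
          rw [Finset.union_sdiff_distrib, Finset.sdiff_eq_empty_iff_subset.2 h4,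
            Finset.empty_union, Finset.sdiff_eq_self_of_disjoint hd]
      · intro K hK
        obtain ⟨hKS, hKF⟩ := Finset.mem_filter.1 hK
        rw [Finset.mem_powerset] at hKS
        have e1 : (K ∩ O).card + (K \ O).card = K.card := Finset.card_inter_add_card_sdiff K O
        have e2 : (S \ O).card = S.card - O.card := Finset.card_sdiff_of_subset hOS
        have e3 : (K ∩ O).card ≤ O.card := Finset.card_le_card Finset.inter_subset_right
        have e4 : (K \ O).card ≤ (S \ O).card :=
          Finset.card_le_card (Finset.sdiff_subset_sdiff hKS (Finset.Subset.refl _))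
        have e5 : O.card ≤ S.card := Finset.card_le_card hOS
        have e6 : S.card - K.card = (O.card - (K ∩ O).card) + ((S \ O).card - (K \ O).card) := by
          omega
        simp only
        rw [e6, ← e1, pow_add, pow_add]
        ring
    rw [hsplit, Finset.sum_product]
    simp only [← Finset.mul_sum]
    rw [← Finset.sum_mul]
    have hfirst : ∑ K ∈ O.powerset.erase O, q ^ K.card * (1 - q) ^ (O.card - K.card) =
        1 - q ^ O.card := by
      have h1 := Finset.sum_pow_mul_eq_add_pow q (1 - q) O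
      rw [← Finset.add_sum_erase _ _ (Finset.mem_powerset.2 (Finset.Subset.refl O))] at h1
      simp only [Nat.sub_self, pow_zero, mul_one, add_sub_cancel, one_pow] at h1
      linarith
    rw [hfirst, Finset.card_insert_of_notMem hOF, pow_succ']
    have h6 : q ^ 6 ≤ q ^ O.card := pow_le_pow_of_le_one hq0 hq1 hO6
    have h7 : q ^ O.card ≤ 1 := pow_le_one₀ hq0 hq1
    refine mul_le_mul (by linarith) hih ?_ (by linarith)
    exact Finset.sum_nonneg fun K _ => by positivity

/-- The binomial weights, up to normalization. -/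
def wt (n k j : ℕ) : ℕ := n.choose j * (k ^ j * (n - k) ^ (n - j))

lemma wt_rel {n k j : ℕ} (hj : j < n) :
    wt n k (j + 1) * ((j + 1) * (n - k)) = wt n k j * ((n - j) * k) := by
  unfold wt
  have h1 := Nat.choose_succ_right_eq n j
  have h2 : n - j = (n - (j + 1)) + 1 := by omega
  calc n.choose (j + 1) * (k ^ (j + 1) * (n - k) ^ (n - (j + 1))) * ((j + 1) * (n - k))
      = (n.choose (j + 1) * (j + 1)) * (k ^ (j + 1) * ((n - k) ^ (n - (j + 1)) * (n - k))) := by
        ring
    _ = (n.choose j * (n - j)) * (k ^ (j + 1) * (n - k) ^ (n - j)) := by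
        rw [h1, ← pow_succ, ← h2]
    _ = _ := by ring

lemma wt_up {n k j : ℕ} (hk : k ≤ n) (hj : j < k) : wt n k j ≤ wt n k (j + 1) := by
  have hjn : j < n := by omega
  have h1 := wt_rel (k := k) hjn
  have h2 : wt n k j * ((n - j) * k) ≤ wt n k (j + 1) * ((n - j) * k) := by
    rw [← h1]
    refine Nat.mul_le_mul_left _ ?_
    calc (j + 1) * (n - k) ≤ k * (n - j) := Nat.mul_le_mul (by omega) (by omega)
      _ = (n - j) * k := Nat.mul_comm _ _
  exact Nat.le_of_mul_le_mul_right h2 (Nat.mul_pos (by omega) (by omega))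

lemma wt_down {n k j : ℕ} (hj : k ≤ j) (hjn : j < n) : wt n k (j + 1) ≤ wt n k j := by
  have h1 := wt_rel (k := k) hjn
  have h2 : wt n k (j + 1) * ((j + 1) * (n - k)) ≤ wt n k j * ((j + 1) * (n - k)) := by
    rw [h1]
    refine Nat.mul_le_mul_left _ ?_
    calc (n - j) * k ≤ (n - k) * (j + 1) := Nat.mul_le_mul (by omega) (by omega)
      _ = (j + 1) * (n - k) := Nat.mul_comm _ _
  exact Nat.le_of_mul_le_mul_right h2 (Nat.mul_pos (by omega) (by omega))

lemma wt_le {n k : ℕ} (hk : k ≤ n) (j : ℕ) (hj : j ≤ n) : wt n k j ≤ wt n k k := by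
  rcases le_total j k with h | h
  · have key : ∀ d, d ≤ k → wt n k (k - d) ≤ wt n k k := by
      intro d
      induction d with
      | zero => intro _; exact le_rfl
      | succ d ih =>
        intro hd
        have h1 := wt_up hk (show k - (d + 1) < k by omega)
        rw [show k - (d + 1) + 1 = k - d by omega] at h1
        exact h1.trans (ih (by omega))
    have := key (k - j) (by omega)
    rwa [show k - (k - j) = j by omega] at this
  · have key : ∀ d, k + d ≤ n → wt n k (k + d) ≤ wt n k k := by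
      intro d
      induction d with
      | zero => intro _; exact le_rfl
      | succ d ih =>
        intro hd
        have h1 := wt_down (show k ≤ k + d by omega) (show k + d < n by omega)
        exact h1.trans (ih (by omega))
    have := key (j - k) (by omega)
    rwa [show k + (j - k) = j by omega] at this

lemma mode_bound {n k : ℕ} (hn : 1 ≤ n) (hk : k ≤ n) :
    1 ≤ ((n : ℝ) + 1) * (n.choose k * (((k : ℝ) / n) ^ k * (1 - (k : ℝ) / n) ^ (n - k))) := by
  have hn0 : (0 : ℝ) < n := by exact_mod_cast hn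
  have h1 : n ^ n ≤ (n + 1) * wt n k k := by
    calc n ^ n = (k + (n - k)) ^ n := by rw [show k + (n - k) = n by omega]
      _ = ∑ j ∈ Finset.range (n + 1), wt n k j := by
          rw [add_pow]
          refine Finset.sum_congr rfl fun j _ => ?_
          unfold wt
          simp only [Nat.cast_id]
          ring
      _ ≤ ∑ _j ∈ Finset.range (n + 1), wt n k k :=
          Finset.sum_le_sum fun j hj => wt_le hk j (by
            have := Finset.mem_range.1 hj
            omega)
      _ = (n + 1) * wt n k k := by rw [Finset.sum_const, Finset.card_range, smul_eq_mul]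
  have h2 : ((n : ℝ)) ^ n ≤ ((n : ℝ) + 1) * (n.choose k * ((k : ℝ) ^ k * ((n : ℝ) - k) ^ (n - k))) := by
    have h3 : (((n - k : ℕ)) : ℝ) = (n : ℝ) - k := Nat.cast_sub hk
    rw [← h3]
    exact_mod_cast h1
  have h4 : ((k : ℝ) / n) ^ k * (1 - (k : ℝ) / n) ^ (n - k) =
      ((k : ℝ) ^ k * ((n : ℝ) - k) ^ (n - k)) / (n : ℝ) ^ n := by
    have h5 : 1 - (k : ℝ) / n = ((n : ℝ) - k) / n := by field_simp
    have h6 : (n : ℝ) ^ n = (n : ℝ) ^ k * (n : ℝ) ^ (n - k) := by
      rw [← pow_add]
      congr 1
      omega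
    rw [h5, div_pow, div_pow, h6]
    field_simp
  rw [h4]
  have h7 : ((n : ℝ) + 1) * (n.choose k * (((k : ℝ) ^ k * ((n : ℝ) - k) ^ (n - k)) / (n : ℝ) ^ n)) =
      (((n : ℝ) + 1) * (n.choose k * ((k : ℝ) ^ k * ((n : ℝ) - k) ^ (n - k)))) / (n : ℝ) ^ n := by
    ring
  rw [h7, le_div_iff₀ (by positivity), one_mul]
  exact h2

/-- The number of `k`-subsets without any member of a family of disjoint small sets. -/
lemma count_bound (S : Finset Pt) (hS : 1 ≤ S.card) (k : ℕ) (hk : k ≤ S.card)
    (F : Finset (Finset Pt)) (hF : ∀ O ∈ F, O ⊆ S ∧ O.card ≤ 6 ∧ O.Nonempty)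
    (hdis : ∀ O ∈ F, ∀ O' ∈ F, O ≠ O' → Disjoint O O') :
    (((S.powersetCard k).filter fun K => ∀ O ∈ F, ¬ O ⊆ K).card : ℝ) ≤
      ((S.card : ℝ) + 1) * S.card.choose k *
        Real.exp (-(((k : ℝ) / S.card) ^ 6 * F.card)) := by
  classical
  obtain ⟨n, hn⟩ : ∃ n, n = S.card := ⟨_, rfl⟩
  obtain ⟨q, hq⟩ : ∃ q : ℝ, q = (k : ℝ) / S.card := ⟨_, rfl⟩
  have hn0 : (0 : ℝ) < S.card := by exact_mod_cast hS
  have hq0 : 0 ≤ q := by rw [hq]; positivity
  have hq1 : q ≤ 1 := by
    rw [hq, div_le_one hn0]
    exact_mod_cast hk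
  have hw := weight_bound q hq0 hq1 F S hF hdis
  obtain ⟨w, hwdef⟩ : ∃ w : ℝ, w = q ^ k * (1 - q) ^ (S.card - k) := ⟨_, rfl⟩
  have hq1' : 0 ≤ 1 - q := by linarith
  have hw0 : 0 ≤ w := by rw [hwdef]; positivity
  obtain ⟨N, hN⟩ : ∃ N : ℝ,
      N = (((S.powersetCard k).filter fun K => ∀ O ∈ F, ¬ O ⊆ K).card : ℝ) := ⟨_, rfl⟩
  have h1 : N * w ≤ (1 - q ^ 6) ^ F.card := by
    refine le_trans ?_ hw
    calc N * w = ∑ K ∈ (S.powersetCard k).filter fun K => ∀ O ∈ F, ¬ O ⊆ K,
          q ^ K.card * (1 - q) ^ (S.card - K.card) := by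
          rw [Finset.sum_congr rfl (g := fun _ => w) fun K hK => by
            rw [(Finset.mem_powersetCard.1 (Finset.mem_filter.1 hK).1).2, hwdef],
            Finset.sum_const, nsmul_eq_mul, hN]
      _ ≤ _ := by
          refine Finset.sum_le_sum_of_subset_of_nonneg ?_ fun K _ _ => by positivity
          refine Finset.filter_subset_filter _ fun K hK => ?_
          exact Finset.mem_powerset.2 (Finset.mem_powersetCard.1 hK).1
  have h2 : (1 : ℝ) ≤ ((S.card : ℝ) + 1) * (S.card.choose k * w) := by
    rw [hwdef, hq]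
    exact mode_bound hS hk
  have hN0 : 0 ≤ N := by rw [hN]; positivity
  have h3 : (1 - q ^ 6) ^ F.card ≤ Real.exp (-(q ^ 6 * F.card)) := by
    have h4 : 1 - q ^ 6 ≤ Real.exp (-(q ^ 6)) := by
      have := Real.add_one_le_exp (-(q ^ 6))
      linarith
    have h5 : 0 ≤ 1 - q ^ 6 := by
      have := pow_le_one₀ (n := 6) hq0 hq1
      linarith
    calc (1 - q ^ 6) ^ F.card ≤ Real.exp (-(q ^ 6)) ^ F.card := pow_le_pow_left₀ h5 h4 _
      _ = Real.exp (-(q ^ 6 * F.card)) := by
          rw [← Real.exp_nat_mul]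
          congr 1
          ring
  rw [← hN, ← hq]
  calc N = N * 1 := (mul_one _).symm
    _ ≤ N * (((S.card : ℝ) + 1) * (S.card.choose k * w)) := mul_le_mul_of_nonneg_left h2 hN0
    _ = ((S.card : ℝ) + 1) * S.card.choose k * (N * w) := by ring
    _ ≤ ((S.card : ℝ) + 1) * S.card.choose k * Real.exp (-(q ^ 6 * F.card)) :=
        mul_le_mul_of_nonneg_left (h1.trans h3) (by positivity)

/-- The acceptance probability of a far set. -/
lemma acceptProb_le {S : Finset Pt} {ε : ℝ} (hfar : IsFar ε S) {k : ℕ} (hk1 : 1 ≤ k)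
    (hk : k ≤ S.card) : acceptProb k S ≤
      (S.card : ℝ) * ((S.card : ℝ) + 1) *
        Real.exp (-(((k : ℝ) / S.card) ^ 6 * (ε * S.card / 6))) := by
  classical
  have hS : 1 ≤ S.card := hk1.trans hk
  choose! F hF1 hF2 hF3 using fun c (hc : c ∈ S) => exists_obstacles hfar hc
  have hsub : (S.powersetCard k).filter IsStretched ⊆
      S.biUnion fun c => (S.powersetCard k).filter fun K => ∀ O ∈ F c, ¬ O ⊆ K := by
    intro K hK
    obtain ⟨hKS, hKst⟩ := Finset.mem_filter.1 hK
    obtain ⟨hKsub, hKcard⟩ := Finset.mem_powersetCard.1 hKS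
    obtain ⟨c, hcK, hgood⟩ := exists_top hKst (Finset.card_pos.1 (by omega))
    refine Finset.mem_biUnion.2 ⟨c, hKsub hcK, Finset.mem_filter.2 ⟨hKS, fun O hO hsub => ?_⟩⟩
    obtain ⟨-, -, -, hcO, hbad⟩ := hF1 c (hKsub hcK) O hO
    exact hbad (hgood.mono fun x hx => Finset.mem_erase.2 ⟨fun h => hcO (h ▸ hx), hsub hx⟩)
  have hn0 : (0 : ℝ) < S.card := by exact_mod_cast hS
  have hch : (0 : ℝ) < S.card.choose k := by exact_mod_cast Nat.choose_pos hk
  have hcount : (((S.powersetCard k).filter IsStretched).card : ℝ) ≤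
      (S.card : ℝ) * (((S.card : ℝ) + 1) * S.card.choose k *
        Real.exp (-(((k : ℝ) / S.card) ^ 6 * (ε * S.card / 6)))) := by
    calc (((S.powersetCard k).filter IsStretched).card : ℝ)
        ≤ ((∑ c ∈ S, ((S.powersetCard k).filter fun K => ∀ O ∈ F c, ¬ O ⊆ K).card : ℕ) : ℝ) := by
          exact_mod_cast (Finset.card_le_card hsub).trans Finset.card_biUnion_le
      _ = ∑ c ∈ S, (((S.powersetCard k).filter fun K => ∀ O ∈ F c, ¬ O ⊆ K).card : ℝ) := by
          push_cast
          rfl
      _ ≤ ∑ _c ∈ S, ((S.card : ℝ) + 1) * S.card.choose k *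
            Real.exp (-(((k : ℝ) / S.card) ^ 6 * (ε * S.card / 6))) := by
          refine Finset.sum_le_sum fun c hc => ?_
          refine (count_bound S hS k hk (F c) (fun O hO => ?_) (hF2 c hc)).trans ?_
          · obtain ⟨h1, h2, h3, -⟩ := hF1 c hc O hO
            exact ⟨h1, h2, h3⟩
          · refine mul_le_mul_of_nonneg_left (Real.exp_le_exp.2 ?_) (by positivity)
            rw [neg_le_neg_iff]
            refine mul_le_mul_of_nonneg_left ?_ (by positivity)
            have := hF3 c hc
            linarith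
      _ = _ := by rw [Finset.sum_const, nsmul_eq_mul]
  unfold acceptProb
  rw [div_le_iff₀ hch]
  calc _ ≤ _ := hcount
    _ = _ := by ring

/-- The property is monotone. -/
lemma IsStretched.mono {S K : Finset Pt} (hS : IsStretched S) (hK : K ⊆ S) : IsStretched K := by
  obtain ⟨X, Y, hL⟩ := exists_lay hS
  exact isStretched_of_lay (hL.mono hK)

lemma small_error {ε p : ℝ} (hε : 0 < ε) (hp : 0 < p) : ∃ n₀ : ℕ, ∀ n : ℕ, n₀ ≤ n →
    (n : ℝ) * ((n : ℝ) + 1) * Real.exp (-(ε / 6 * (n : ℝ) ^ (1 / 7 : ℝ))) ≤ p := by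
  have h1 : Filter.Tendsto (fun n : ℕ => ε / 6 * (n : ℝ) ^ (1 / 7 : ℝ)) Filter.atTop
      Filter.atTop :=
    Filter.Tendsto.const_mul_atTop (by positivity)
      ((tendsto_rpow_atTop (by norm_num)).comp tendsto_natCast_atTop_atTop)
  have h2 := (Real.tendsto_pow_mul_exp_neg_atTop_nhds_zero 14).comp h1
  have h3 := h2.const_mul (2 * (6 / ε) ^ 14)
  rw [mul_zero] at h3
  have h4 := h3.eventually (ge_mem_nhds hp)
  obtain ⟨n₀, hn₀⟩ := Filter.eventually_atTop.1 (h4.and (Filter.eventually_ge_atTop 1))
  refine ⟨n₀, fun n hn => ?_⟩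
  obtain ⟨h5, h6⟩ := hn₀ n hn
  have hn1 : (1 : ℝ) ≤ n := by exact_mod_cast h6
  refine le_trans ?_ h5
  simp only [Function.comp]
  have h7 : (n : ℝ) ^ 2 = (6 / ε) ^ 14 * (ε / 6 * (n : ℝ) ^ (1 / 7 : ℝ)) ^ 14 := by
    rw [← mul_pow, ← mul_assoc, show 6 / ε * (ε / 6) = 1 by field_simp, one_mul,
      ← Real.rpow_natCast ((n : ℝ) ^ (1 / 7 : ℝ)) 14, ← Real.rpow_mul (by positivity),
      ← Real.rpow_natCast (n : ℝ) 2]
    norm_num
  calc (n : ℝ) * ((n : ℝ) + 1) * Real.exp (-(ε / 6 * (n : ℝ) ^ (1 / 7 : ℝ)))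
      ≤ (2 * (n : ℝ) ^ 2) * Real.exp (-(ε / 6 * (n : ℝ) ^ (1 / 7 : ℝ))) := by
        refine mul_le_mul_of_nonneg_right ?_ (Real.exp_pos _).le
        nlinarith
    _ = 2 * (6 / ε) ^ 14 * ((ε / 6 * (n : ℝ) ^ (1 / 7 : ℝ)) ^ 14 *
          Real.exp (-(ε / 6 * (n : ℝ) ^ (1 / 7 : ℝ)))) := by
        rw [h7]
        ring

/-- **Sublinear sample-based testing of stretched configurations.** For all `ε, p ∈ (0, 1)` there
is a sublinear sample size `k`, in fact with `k n = O(n ^ (6 / 7))`, such that the sample-based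
tester with sample size `k` accepts every stretched configuration with probability `1`, and
accepts every configuration which is `ε`-far from being stretched with probability at most `p`. -/
theorem result (ε p : ℝ) (hε : 0 < ε) (_hε1 : ε < 1) (hp : 0 < p) (_hp1 : p < 1) :
    ∃ k : ℕ → ℕ, (∀ n, k n ≤ n) ∧
      (fun n => (k n : ℝ)) =o[Filter.atTop] (fun n => (n : ℝ)) ∧
      (∃ C : ℝ, ∀ n, (k n : ℝ) ≤ C * (n : ℝ) ^ (6 / 7 : ℝ)) ∧
      (∀ S : Finset Pt, IsStretched S → acceptProb (k S.card) S = 1) ∧
      ∀ S : Finset Pt, IsFar ε S → acceptProb (k S.card) S ≤ p := by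
  classical
  obtain ⟨n₀, hn₀⟩ := small_error hε hp
  obtain ⟨k, hk⟩ : ∃ k : ℕ → ℕ, k = fun n => if n < n₀ then n else ⌈(n : ℝ) ^ (6 / 7 : ℝ)⌉₊ :=
    ⟨_, rfl⟩
  have hceil : ∀ n : ℕ, ⌈(n : ℝ) ^ (6 / 7 : ℝ)⌉₊ ≤ n := by
    intro n
    rcases Nat.eq_zero_or_pos n with rfl | hn
    · simp
    · rw [Nat.ceil_le]
      have h1 : (1 : ℝ) ≤ n := by exact_mod_cast hn
      calc (n : ℝ) ^ (6 / 7 : ℝ) ≤ (n : ℝ) ^ (1 : ℝ) :=
            Real.rpow_le_rpow_of_exponent_le h1 (by norm_num)
        _ = n := Real.rpow_one _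
  have hkn : ∀ n, k n ≤ n := by
    intro n
    simp only [hk]
    split_ifs
    · exact le_rfl
    · exact hceil n
  have hkC : ∀ n, (k n : ℝ) ≤ ((n₀ : ℝ) + 2) * (n : ℝ) ^ (6 / 7 : ℝ) := by
    intro n
    rcases Nat.eq_zero_or_pos n with rfl | hn
    · have : k 0 = 0 := Nat.le_zero.1 (hkn 0)
      rw [this]
      simp
    · have h1 : (1 : ℝ) ≤ n := by exact_mod_cast hn
      have h2 : (1 : ℝ) ≤ (n : ℝ) ^ (6 / 7 : ℝ) := Real.one_le_rpow h1 (by norm_num)
      have h3 : (0 : ℝ) ≤ n₀ := Nat.cast_nonneg _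
      simp only [hk]
      split_ifs with hlt
      · have h4 : (n : ℝ) < n₀ := by exact_mod_cast hlt
        nlinarith
      · have h5 := (Nat.ceil_lt_add_one (show 0 ≤ (n : ℝ) ^ (6 / 7 : ℝ) by positivity)).le
        nlinarith
  have hlittle : (fun n => (k n : ℝ)) =o[Filter.atTop] (fun n => (n : ℝ)) := by
    have h1 : (fun n : ℕ => (k n : ℝ)) =O[Filter.atTop] (fun n : ℕ => (n : ℝ) ^ (6 / 7 : ℝ)) := by
      refine Asymptotics.IsBigO.of_bound ((n₀ : ℝ) + 2) (Filter.Eventually.of_forall fun n => ?_)
      rw [Real.norm_of_nonneg (Nat.cast_nonneg _), Real.norm_of_nonneg (by positivity)]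
      exact hkC n
    refine h1.trans_isLittleO ?_
    rw [Asymptotics.isLittleO_iff_tendsto' (Filter.Eventually.of_forall fun n hn => by
      have : (n : ℝ) = 0 := hn
      rw [this]
      exact Real.zero_rpow (by norm_num))]
    have h2 : Filter.Tendsto (fun n : ℕ => (n : ℝ) ^ (-(1 / 7) : ℝ)) Filter.atTop (nhds 0) :=
      (tendsto_rpow_neg_atTop (by norm_num)).comp tendsto_natCast_atTop_atTop
    refine h2.congr' (Filter.eventually_atTop.2 ⟨1, fun n hn => ?_⟩)
    have hn0 : (0 : ℝ) < n := by exact_mod_cast hn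
    rw [eq_div_iff hn0.ne']
    calc (n : ℝ) ^ (-(1 / 7) : ℝ) * n = (n : ℝ) ^ (-(1 / 7) : ℝ) * (n : ℝ) ^ (1 : ℝ) := by
          rw [Real.rpow_one]
      _ = (n : ℝ) ^ (6 / 7 : ℝ) := by
          rw [← Real.rpow_add hn0]
          norm_num
  refine ⟨k, hkn, hlittle, ⟨_, hkC⟩, fun S hS => ?_, fun S hS => ?_⟩
  · unfold acceptProb
    rw [Finset.filter_true_of_mem fun K hK => hS.mono (Finset.mem_powersetCard.1 hK).1,
      Finset.card_powersetCard, div_self]
    exact_mod_cast (Nat.choose_pos (hkn _)).ne'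
  · by_cases hlt : S.card < n₀
    · have h1 : k S.card = S.card := by simp only [hk, if_pos hlt]
      have h2 : ¬ IsStretched S := by
        have := hS ∅ (Finset.empty_subset _) (by
          rw [Finset.card_empty, Nat.cast_zero]
          exact mul_nonneg hε.le (Nat.cast_nonneg _))
        rwa [Finset.sdiff_empty] at this
      unfold acceptProb
      rw [h1, Finset.powersetCard_self, Finset.filter_singleton, if_neg h2]
      simp
      exact hp.le
    · have h1 : k S.card = ⌈(S.card : ℝ) ^ (6 / 7 : ℝ)⌉₊ := by simp only [hk, if_neg hlt]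
      rcases Nat.eq_zero_or_pos S.card with h0 | hpos
      · -- the empty set is stretched
        exfalso
        have h2 : S = ∅ := Finset.card_eq_zero.1 h0
        have := hS ∅ (Finset.empty_subset _) (by simp [h0])
        rw [h2, Finset.sdiff_empty] at this
        exact this (isStretched_of_lay (X := fun _ => 0) (Y := fun _ => 0)
          ⟨by simp, by simp, by simp⟩)
      · have hk1 : 1 ≤ k S.card := by
          rw [h1, Nat.one_le_ceil_iff]
          exact Real.rpow_pos_of_pos (by exact_mod_cast hpos) _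
        refine (acceptProb_le hS hk1 (hkn _)).trans (le_trans ?_ (hn₀ S.card (not_lt.1 hlt)))
        have h2 : (S.card : ℝ) ^ (6 / 7 : ℝ) ≤ k S.card := by
          rw [h1]
          exact Nat.le_ceil _
        obtain ⟨x, hx⟩ : ∃ x : ℝ, (S.card : ℝ) = x := ⟨_, rfl⟩
        obtain ⟨y, hy⟩ : ∃ y : ℝ, (k S.card : ℝ) = y := ⟨_, rfl⟩
        have hx0 : 0 < x := by
          rw [← hx]
          exact_mod_cast hpos
        rw [hx, hy] at h2
        rw [hx, hy]
        clear hx hy h1 hk1 hpos hlt hS
        refine mul_le_mul_of_nonneg_left (Real.exp_le_exp.2 ?_) (by positivity)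
        rw [neg_le_neg_iff]
        have h3 : x ^ (-(1 / 7) : ℝ) ≤ y / x := by
          rw [le_div_iff₀ hx0]
          calc x ^ (-(1 / 7) : ℝ) * x = x ^ (-(1 / 7) : ℝ) * x ^ (1 : ℝ) := by rw [Real.rpow_one]
            _ = x ^ (6 / 7 : ℝ) := by
                rw [← Real.rpow_add hx0]
                norm_num
            _ ≤ y := h2
        have h4 : x ^ (-(6 / 7) : ℝ) ≤ (y / x) ^ 6 := by
          calc x ^ (-(6 / 7) : ℝ) = (x ^ (-(1 / 7) : ℝ)) ^ 6 := by
                rw [← Real.rpow_natCast (x ^ (-(1 / 7) : ℝ)) 6, ← Real.rpow_mul hx0.le]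
                norm_num
            _ ≤ _ := pow_le_pow_left₀ (by positivity) h3 6
        calc ε / 6 * x ^ (1 / 7 : ℝ) = x ^ (-(6 / 7) : ℝ) * (ε * x / 6) := by
              have h5 : x ^ (1 / 7 : ℝ) = x ^ (-(6 / 7) : ℝ) * x := by
                calc x ^ (1 / 7 : ℝ) = x ^ (-(6 / 7) : ℝ) * x ^ (1 : ℝ) := by
                      rw [← Real.rpow_add hx0]
                      norm_num
                  _ = _ := by rw [Real.rpow_one]
              rw [h5]
              ring
          _ ≤ (y / x) ^ 6 * (ε * x / 6) := mul_le_mul_of_nonneg_right h4 (by positivity)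

end Pool.Agent.Results.MP_097bbc_lc.SublinearTester
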